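import Pool.Agent.H44.RT.Rainbow

set_option autoImplicit false

/-!
Weightings between closed trails and bridgeless edge sets; highly edge-connected graphs; graphs with
disjoint spanning closed trails and connected edge sets; rigid nowhere-zero 4-flows.
-/

namespace Pool.Agent.Results.MP_20b97f_co.ClosedTrails

open Finset
open Pool.Agent.H126R2.CDC (MGraph)

variable {V E : Type} [Fintype V] [DecidableEq V] [Fintype E] [DecidableEq E]

/-- The edge `e` leaves the vertex set `B`: it has an end-vertex in `B` and an end-vertex outside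
`B`. -/
def Leaves (G : MGraph V E) (e : E) (B : Finset V) : Prop :=
  (∃ x ∈ G.ends e, x ∈ B) ∧ ∃ x ∈ G.ends e, x ∉ B

/-- The graph `(V, A)` is connected: every nonempty proper set of vertices is left by an edge of
`A`. -/
def Conn (G : MGraph V E) (A : Finset E) : Prop :=
  ∀ B : Finset V, B.Nonempty → B ≠ univ → ∃ e ∈ A, Leaves G e B

/-- `G` is `k`-edge-connected: every nonempty proper set of vertices is left by at least `k`
edges. -/
def EdgeConnected (G : MGraph V E) (k : ℕ) : Prop :=
  ∀ B : Finset V, B.Nonempty → B ≠ univ → ∃ S : Finset E, k ≤ S.card ∧ ∀ e ∈ S, Leaves G e B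

/-- Every vertex has even degree in `A`. -/
def EvenSet (G : MGraph V E) (A : Finset E) : Prop := ∀ v, Even (G.deg A v)

/-- `D` is the edge set of a closed trail (or empty): every vertex has even degree in `D`, and any
two edges of `D` are joined by a chain of edges of `D` in which consecutive edges share a vertex. -/
def ClosedTrail (G : MGraph V E) (D : Finset E) : Prop :=
  EvenSet G D ∧ ∀ e ∈ D, ∀ f ∈ D,
    Relation.ReflTransGen (fun a b => b ∈ D ∧ ∃ v, v ∈ G.ends a ∧ v ∈ G.ends b) e f

/-- `D` is the edge set of a spanning closed trail: every vertex has even degree in `D`, and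
`(V, D)` is connected. -/
def SpanningTrail (G : MGraph V E) (D : Finset E) : Prop := EvenSet G D ∧ Conn G D

/-- The closed trail `D` passes through all ends of the edge `e`. -/
def Through (G : MGraph V E) (D : Finset E) (e : E) : Prop :=
  ∀ x ∈ G.ends e, ∃ f ∈ D, x ∈ G.ends f

/-- The edge set `D` is a cut (possibly empty): it consists of the edges leaving some vertex
set. -/
def IsCut (G : MGraph V E) (D : Finset E) : Prop := ∃ B : Finset V, ∀ e, e ∈ D ↔ Leaves G e B

/-- The edge set `H` is bridgeless: no vertex set is left by exactly one edge of `H`. -/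
def Bridgeless (G : MGraph V E) (H : Finset E) : Prop :=
  ∀ B : Finset V, ¬ ∃ e, ∀ f, f ∈ H ∧ Leaves G f B ↔ f = e

/-- `(G, p)` has a circuit cover: some multiset of circuits contains every edge `e` in exactly `p e`
of its members. -/
def HasCover (G : MGraph V E) (p : E → ℕ) : Prop :=
  ∃ F : Multiset (Finset E), (∀ C ∈ F, G.IsCircuit C) ∧ ∀ e, F.countP (fun C => e ∈ C) = p e

/-- `p` is an integer combination of the incidence vectors of the circuits of `G`. -/
def InLattice (G : MGraph V E) (p : E → ℕ) : Prop :=
  (fun e => (p e : ℤ)) ∈ AddSubgroup.closure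
    {x : E → ℤ | ∃ C, G.IsCircuit C ∧ x = fun e => if e ∈ C then 1 else 0}

/-- The number of the sets `D i` which contain `e`. -/
def mult {N : ℕ} (D : Fin N → Finset E) (e : E) : ℕ := (univ.filter (fun i => e ∈ D i)).card

open Classical in
/-- The number of the closed trails `D i` which pass through all ends of `e`. -/
noncomputable def passes {N : ℕ} (G : MGraph V E) (D : Fin N → Finset E) (e : E) : ℕ :=
  (univ.filter (fun i => Through G (D i) e)).card

/-- `G` has a rigid nowhere-zero 4-flow: two even sets `X` and `Y` which together contain all edges,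
such that the empty set is the only edge set `M` for which both `M ∩ X` and `M ∩ Y` are cuts. -/
def RigidFourFlow (G : MGraph V E) : Prop :=
  ∃ X Y : Finset E, EvenSet G X ∧ EvenSet G Y ∧ X ∪ Y = univ ∧
    ∀ M : Finset E, IsCut G (M ∩ X) → IsCut G (M ∩ Y) → M = ∅

/-- Let `G` be a finite graph, loops and parallel edges allowed, let `p` be a weighting of its edges
by natural numbers, even or not, and let `q(e)` be the largest even number which is at most `p(e)`.
In each of the following cases `(G, p)` has a circuit cover if and only if `p` lies in the lattice of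
the circuits.

1. There are closed trails `D 1, …, D N`, not necessarily spanning, and bridgeless edge sets
   `H 1, …, H M`, repetitions allowed, such that `d(e) ≤ p(e) - 2 h(e) ≤ 2 s(e) - d(e) + 1` for every
   edge `e`, where `d(e)` is the number of the trails containing `e`, `s(e)` the number of the trails
   passing through all ends of `e`, and `h(e)` the number of the `H j` containing `e`. (For instance,
   `p` has the values two and four, and there are two spanning closed trails without a common edge of
   weight four, or three spanning closed trails without a common edge of weight two.)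
2. `G` is `2 r`-edge-connected, and `q(e) ≤ (r - 1) q(f)` for all edges `e`, `f`, or `q(e) ≤ r q(f)`
   for all edges `e`, `f` and there is a connected spanning edge set `K` on all of whose edges `q`
   takes its maximum value. (For instance, `G` is 4-edge-connected, `p` has the values two and four,
   and the edges of weight four contain a spanning tree.)
3. `G` has `m ≥ 1` spanning closed trails `D i`, with every edge in at most two of them, and `k ≥ 0`
   connected spanning edge sets `T j`, pairwise disjoint and disjoint from the trails, and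
   `q(e) ≤ (m + k - 1) q(f)` for all edges `e`, `f`. (For instance, `D 1 = D 2` is a spanning closed
   trail whose complement is connected, `m = 2`, `k = 1`: ratio two.)
4. `G` has a rigid nowhere-zero 4-flow and `q(e) ≤ 2 q(f)` for all edges `e`, `f`. -/
theorem result (V E : Type) [Fintype V] [DecidableEq V] [Fintype E] [DecidableEq E]
    (G : MGraph V E) (p q : E → ℕ) (hq : ∀ e, q e = 2 * (p e / 2))
    (h : (∃ (N M : ℕ) (D : Fin N → Finset E) (H : Fin M → Finset E), (∀ i, ClosedTrail G (D i)) ∧
          (∀ j, Bridgeless G (H j)) ∧ ∀ e, mult D e + 2 * mult H e ≤ p e ∧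
            p e + mult D e ≤ 2 * passes G D e + 2 * mult H e + 1) ∨
      (∃ r : ℕ, EdgeConnected G (2 * r) ∧ ((∀ e f, q e ≤ (r - 1) * q f) ∨
          (∀ e f, q e ≤ r * q f) ∧ ∃ K : Finset E, Conn G K ∧ ∀ e ∈ K, ∀ f, q f ≤ q e)) ∨
      (∃ (m k : ℕ) (D : Fin m → Finset E) (T : Fin k → Finset E), 1 ≤ m ∧
          (∀ i, SpanningTrail G (D i)) ∧ (∀ e, mult D e ≤ 2) ∧ (∀ j, Conn G (T j)) ∧
          (∀ j i, Disjoint (T j) (D i)) ∧ (∀ j l, j ≠ l → Disjoint (T j) (T l)) ∧
          ∀ e f, q e ≤ (m + k - 1) * q f) ∨
      (RigidFourFlow G ∧ ∀ e f, q e ≤ 2 * q f)) :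
    HasCover G p ↔ InLattice G p := by
  classical
  refine ⟨fun hc => (Pool.Agent.H126R2.NC.cone_lat_of_intCone G p hc).2, fun hlat => ?_⟩
  -- the even part suffices
  have heven : Pool.Agent.H126R2.NC.InIntCone G (fun e => 2 * (p e / 2)) → HasCover G p := by
    intro h1
    refine Pool.Agent.TH399.CC.intCone_add G h1 (Pool.Agent.TH399.CC.odd_part G p hlat) ?_
    intro e
    show p e = 2 * (p e / 2) + p e % 2
    omega
  have hhalf : ∀ c : ℕ, (∀ e f, q e ≤ c * q f) → ∀ e f, p e / 2 ≤ c * (p f / 2) := by
    intro c hr e f
    have h1 := hr e f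
    rw [hq e, hq f] at h1
    have h2 : c * (2 * (p f / 2)) = 2 * (c * (p f / 2)) := by ring
    omega
  have hcut : ∀ k : ℕ, EdgeConnected G k → ∀ B : Finset V, B.Nonempty → B ≠ univ →
      k ≤ (Pool.Agent.H44.RT.bdry G univ B).card := by
    intro k hm B hB1 hB2
    obtain ⟨S, hS1, hS2⟩ := hm B hB1 hB2
    refine le_trans hS1 (Finset.card_le_card ?_)
    intro e he
    unfold Pool.Agent.H44.RT.bdry
    rw [Finset.mem_filter]
    exact ⟨Finset.mem_univ _, hS2 e he⟩
  rcases h with ⟨N, M, D, H, hD, hH, hb⟩ | ⟨m, hm, hr | ⟨hr, K, hK, hmax⟩⟩ |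
    ⟨m, k, D, T, hm, hD, hc, hT, hTD, hTT, hr⟩ | ⟨⟨X, Y, hX, hY, hXY, hrig⟩, hr⟩
  · refine Pool.Agent.H44.RT.sandwich_mixed G D (fun i => (hD i).1) (fun i => (hD i).2) H
      (fun j B h1 => hH j B ?_) p hlat (fun e => ?_) (fun e => ?_)
    · obtain ⟨e, he⟩ := Finset.card_eq_one.1 h1
      refine ⟨e, fun f => ?_⟩
      have h2 : f ∈ Pool.Agent.H44.RT.bdry G (H j) B ↔ f = e := by
        rw [he, Finset.mem_singleton]
      rw [← h2]
      unfold Pool.Agent.H44.RT.bdry
      rw [Finset.mem_filter]
      exact Iff.rfl
    · have h1 := (hb e).1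
      unfold mult at h1
      convert h1 using 3
    · have h1 := (hb e).2
      unfold mult passes at h1
      convert h1 using 6
      exact Iff.rfl
  · apply heven
    have ht := hhalf _ hr
    rcases Nat.lt_or_ge m 2 with h2 | h2
    · refine ⟨0, by simp, fun e => ?_⟩
      have h3 := ht e e
      have h4 : m - 1 = 0 := by omega
      rw [h4, zero_mul] at h3
      simp
      omega
    · obtain ⟨n, rfl⟩ : ∃ n, m = n + 2 := ⟨m - 2, by omega⟩
      obtain ⟨D, h3, h4, h5⟩ := Pool.Agent.H44.RT.trails_of_edgeConn G n (hcut _ hm)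
      exact Pool.Agent.H44.RT.trails_ratio G (n + 2) D h3 h4 h5 _ ht
  · apply heven
    refine Pool.Agent.H44.RT.heavy_tree G m (hcut _ hm) K hK _ (hhalf _ hr) ?_
    intro e he f
    have h1 := hmax e he f
    rw [hq e, hq f] at h1
    omega
  · apply heven
    refine Pool.Agent.H44.RT.mixed_ratio G m k hm D (fun i => (hD i).1) (fun i => (hD i).2) hc
      (fun j => if hj : j < k then T ⟨j, hj⟩ else ∅) ?_ ?_ ?_ _ (hhalf _ hr)
    · intro j hj B hB1 hB2
      simp only [hj, dite_true]
      exact hT _ B hB1 hB2
    · intro j hj i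
      simp only [hj, dite_true]
      exact hTD _ i
    · intro j hj l hl hjl
      simp only [hj, hl, dite_true]
      apply hTT
      intro h1
      exact hjl (congrArg Fin.val h1)
  · apply heven
    have ht : ∀ e f, 2 * (p e / 2) ≤ 2 * (2 * (p f / 2)) := by
      intro e f
      have h1 := hr e f
      rw [hq e, hq f] at h1
      exact h1
    refine Pool.Agent.H44.RT.of_blocks G (Pool.Agent.H44.RT.block_rigid G X Y hX hY ?_ ?_)
      _ (fun e => even_two_mul _) ht
    · intro e
      have h3 : e ∈ X ∪ Y := by rw [hXY]; exact Finset.mem_univ _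
      exact Finset.mem_union.1 h3
    · rintro M ⟨B, hB⟩ ⟨B', hB'⟩
      refine hrig M ⟨B, fun e => ?_⟩ ⟨B', fun e => ?_⟩
      · rw [Finset.mem_inter]; exact hB e
      · rw [Finset.mem_inter]; exact hB' e

end Pool.Agent.Results.MP_20b97f_co.ClosedTrails
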