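import Pool.Agent.H44.RT.Pack

set_option autoImplicit false

/-!
Circuit covers of weighted graphs with disjoint spanning two-edge-connected subgraphs and one more
disjoint spanning connected subgraph.
-/

namespace Pool.Agent.Results.MP_20b97f_co.ConnectedComplement

open Finset
open Pool.Agent.H126R2.CDC (MGraph)

variable {V E : Type} [Fintype V] [DecidableEq V] [Fintype E] [DecidableEq E]

/-- The edge `e` leaves the vertex set `B`: it has an end-vertex in `B` and an end-vertex outside
`B`. -/
def Leaves (G : MGraph V E) (e : E) (B : Finset V) : Prop :=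
  (∃ x ∈ G.ends e, x ∈ B) ∧ ∃ x ∈ G.ends e, x ∉ B

/-- The graph `(V, A)` is connected: every nonempty proper set of vertices is left by an edge of
`A`. -/
def Conn (G : MGraph V E) (A : Finset E) : Prop :=
  ∀ B : Finset V, B.Nonempty → B ≠ univ → ∃ e ∈ A, Leaves G e B

/-- The graph `(V, A)` is two-edge-connected: every nonempty proper set of vertices is left by at
least two edges of `A`. -/
def TwoConn (G : MGraph V E) (A : Finset E) : Prop :=
  ∀ B : Finset V, B.Nonempty → B ≠ univ → ∃ e ∈ A, ∃ f ∈ A, e ≠ f ∧ Leaves G e B ∧ Leaves G f B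

/-- `(G, p)` has a circuit cover: some multiset of circuits contains every edge `e` in exactly `p e`
of its members. -/
def HasCover (G : MGraph V E) (p : E → ℕ) : Prop :=
  ∃ F : Multiset (Finset E), (∀ C ∈ F, G.IsCircuit C) ∧ ∀ e, F.countP (fun C => e ∈ C) = p e

/-- `p` is an integer combination of the incidence vectors of the circuits of `G`. -/
def InLattice (G : MGraph V E) (p : E → ℕ) : Prop :=
  (fun e => (p e : ℤ)) ∈ AddSubgroup.closure
    {x : E → ℤ | ∃ C, G.IsCircuit C ∧ x = fun e => if e ∈ C then 1 else 0}

/-- Let `G` be a finite graph, loops and parallel edges allowed, let `k ≥ 1` and let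
`A 0, …, A (k-1)` and `T` be pairwise disjoint sets of edges such that the graphs `(V, A i)` are
two-edge-connected and `(V, T)` is connected; for `k = 1` and `T` the complement of `A 0` this says
that `G` has a spanning two-edge-connected subgraph whose complement is connected.

Let `p` be a weighting of the edges by natural numbers, even or not, and let `q(e)` be the largest
even number which is at most `p(e)`. Suppose that `q(e) + 12 k - 6 ≤ 2 k q(f)` for all edges `e`,
`f`. Then `(G, p)` has a circuit cover if and only if `p` lies in the lattice of the circuits. -/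
theorem result (V E : Type) [Fintype V] [DecidableEq V] [Fintype E] [DecidableEq E]
    (G : MGraph V E) (k : ℕ) (hk : 1 ≤ k) (A : Fin k → Finset E) (T : Finset E)
    (hA : ∀ i, TwoConn G (A i)) (hT : Conn G T)
    (hAA : ∀ i j, i ≠ j → Disjoint (A i) (A j)) (hAT : ∀ i, Disjoint (A i) T)
    (p q : E → ℕ) (hq : ∀ e, q e = 2 * (p e / 2))
    (hpq : ∀ e f, q e + 12 * k ≤ 2 * k * q f + 6) :
    HasCover G p ↔ InLattice G p := by
  refine Pool.Agent.H44.RT.pack_lat G k hk A T ?_ hT hAA hAT p ?_
  · intro i B h1 h2
    obtain ⟨e, he, f, hf, hef, h3, h4⟩ := hA i B h1 h2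
    have h5 : ({e, f} : Finset E) ⊆ Pool.Agent.H44.RT.bdry G (A i) B := by
      intro g hg
      unfold Pool.Agent.H44.RT.bdry
      rw [Finset.mem_filter]
      rcases Finset.mem_insert.1 hg with rfl | hg
      · exact ⟨he, h3⟩
      · rw [Finset.mem_singleton] at hg
        subst hg
        exact ⟨hf, h4⟩
    have h6 := Finset.card_le_card h5
    rw [Finset.card_pair hef] at h6
    exact h6
  · intro e f
    have h1 := hpq e f
    rw [hq e, hq f] at h1
    have h2 : 2 * k * (2 * (p f / 2)) = 2 * (2 * k * (p f / 2)) := by ring
    rw [h2] at h1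
    omega

end Pool.Agent.Results.MP_20b97f_co.ConnectedComplement
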