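import Pool.Agent.H12.FT.Seven

set_option autoImplicit false

namespace Pool.Agent.Results.MP_20b97f_co.FourThirds

open Pool.Agent.H126R2.CDC (MGraph)

/-- Good ranges of ratio `4 / 3` and `7 / 6`. Let `G` be a finite graph and let `p` be a weighting of
its edges by integers at least two, even or not, such that for any two edges `e`, `f` the numbers
`m = p(e) / 2`, `n = p(f) / 2`, rounded down, satisfy `3 m + 9 ≤ 4 n` or `6 m ≤ 7 n`. Then `(G, p)` has
a circuit cover if and only if `p` lies in the cone and in the lattice generated by the circuits.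

So every interval of integers `[k, n]` with `3 n + 22 ≤ 4 k` is a good range, every set of even numbers
`[k, n]` with `3 n + 18 ≤ 4 k`, every set of positive even integers with quotients at most `7 / 6`, for
instance `{2 s, 2 s + 2}` for `s ≥ 6`, and the range `{k, k + 1, k + 2}` for every `k ≥ 12`. -/
theorem result (V E : Type) [Fintype V] [DecidableEq V] [Fintype E] [DecidableEq E]
    (G : MGraph V E) (p : E → ℕ) (hpos : ∀ e, 2 ≤ p e)
    (hr : ∀ e f, 3 * (p e / 2) + 9 ≤ 4 * (p f / 2) ∨ 6 * (p e / 2) ≤ 7 * (p f / 2)) :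
    (∃ F : Multiset (Finset E), (∀ C ∈ F, G.IsCircuit C) ∧
        ∀ e, F.countP (fun C => e ∈ C) = p e) ↔
      (∃ w : Finset E → ℝ, (∀ C, 0 ≤ w C) ∧ (∀ C, ¬ G.IsCircuit C → w C = 0) ∧
        ∀ e, (p e : ℝ) = ∑ C : Finset E, w C * (if e ∈ C then 1 else 0)) ∧
      (fun e => (p e : ℤ)) ∈ AddSubgroup.closure
        {x : E → ℤ | ∃ C, G.IsCircuit C ∧ x = fun e => if e ∈ C then 1 else 0} :=
  Pool.Agent.H12.FT.seven G p hpos hr

end Pool.Agent.Results.MP_20b97f_co.FourThirds
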