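import Pool.Agent.H66.EC.Final

set_option autoImplicit false

/-!
Circuit covers of weightings which are constant on a depth-first search tree, or on a spanning tree
along which the other edges are directed (MP_20b97f_co)
-/

namespace Pool.Agent.Results.MP_20b97f_co.WeightsOnSearchTrees

open Finset
open Pool.Agent.H126R2.CDC (MGraph)
open Pool.Agent.H66.EC (Leaves Thin)

/-- Let `G` be a finite graph, `c` a natural number and `p` a weighting of the edges such that

* all weights are even and at most `c`, or
* all weights are divisible by four and at most `3 c / 2`, or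
* all weights, even or not, are at least `c / 2 + 1` and at most `(3 c - 17) / 2`.

Suppose that one of the following holds.

* (search tree) There is a spanning tree of `G` with root `r` (the vertex `v ≠ r` is joined to its
  parent `par v` by the edge `te v`) whose edges have weight `c`, such that for every edge of weight
  different from `c` one of its ends lies on the path of the tree from the other end to the root.
* (directed tree) There is a connected spanning set `T` of edges of weight `c` with the following
  property. Call a vertex set thin if exactly one edge of `T` leaves it. From every complementary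
  pair of thin sets at least one can be chosen such that for every edge `x y` of weight different
  from `c` all chosen thin sets containing `x` contain `y`, or conversely. (If `T` is a tree, this
  means that the edges of `T` can be oriented such that for every edge `x y` of weight different
  from `c` the path of `T` between `x` and `y` is directed.)

Then `(G, p)` has a circuit cover if and only if `p` lies in the cone and in the lattice of the
circuits. -/
theorem result (V E : Type) [Fintype V] [DecidableEq V] [Fintype E] [DecidableEq E]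
    (G : MGraph V E) (p : E → ℕ) (c : ℕ)
    (hw : ((∀ e, Even (p e)) ∧ ∀ e, p e ≤ c) ∨ ((∀ e, 4 ∣ p e) ∧ ∀ e, 2 * p e ≤ 3 * c) ∨
      ∀ e, c + 2 ≤ 2 * p e ∧ 2 * p e + 17 ≤ 3 * c)
    (hT : (∃ (r : V) (par : V → V) (te : V → E), par r = r ∧ (∀ v, ∃ n, par^[n] v = r) ∧
        (∀ v, v ≠ r → G.ends (te v) = s(v, par v) ∧ p (te v) = c) ∧
        ∀ e x y, G.ends e = s(x, y) → p e ≠ c → ∃ n, par^[n] x = y ∨ par^[n] y = x) ∨
      ∃ (T : Finset E) (S : Finset V → Prop), (∀ e ∈ T, p e = c) ∧
        (∀ Z : Finset V, Z.Nonempty → Z ≠ univ → ∃ e ∈ T, Leaves G Z e) ∧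
        (∀ Z, Thin G T Z → S Z ∨ S Zᶜ) ∧
        ∀ e x y, G.ends e = s(x, y) → p e ≠ c →
          (∀ Z, Thin G T Z → S Z → x ∈ Z → y ∈ Z) ∨ (∀ Z, Thin G T Z → S Z → y ∈ Z → x ∈ Z)) :
    (∃ F : Multiset (Finset E), (∀ C ∈ F, G.IsCircuit C) ∧
        ∀ e, F.countP (fun C => e ∈ C) = p e) ↔
      (∃ w : Finset E → ℝ, (∀ C, 0 ≤ w C) ∧ (∀ C, ¬ G.IsCircuit C → w C = 0) ∧
        ∀ e, (p e : ℝ) = ∑ C : Finset E, w C * (if e ∈ C then 1 else 0)) ∧
      (fun e => (p e : ℤ)) ∈ AddSubgroup.closure
        {x : E → ℤ | ∃ C, G.IsCircuit C ∧ x = fun e => if e ∈ C then 1 else 0} := by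
  rcases hT with ⟨r, par, te, h1, h2, h3, h4⟩ | ⟨T, S, h1, h2, h3, h4⟩
  · exact Pool.Agent.H66.EC.rooted G p c hw r par te h1 h2 h3 h4
  · exact Pool.Agent.H66.EC.general G p c hw T S h1 h2 h3 h4

end Pool.Agent.Results.MP_20b97f_co.WeightsOnSearchTrees
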